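import Pool.Agent.Work.MP_6985d1_gg.Interface

/-!
# Block FLIP: the word `fl j` keeps the first `j` letters and changes the letter number `j`
-/

set_option autoImplicit false

namespace GrigGrowth.helper22

open GrigGrowth Equiv

/-- `g` keeps the first `j` letters and changes the letter number `j` -/
def F (j : ℕ) (g : Perm (List Bool)) : Prop := ∀ v : List Bool, j < v.length →
  (g v).take j = v.take j ∧ (g v)[j]? = v[j]?.map (fun x => !x)

theorem F_conj {j : ℕ} {g : Perm (List Bool)} (h : F j g) : F j (gen .a * g * gen .a) := by
  intro v hv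
  match v with
  | [] => simp at hv
  | x :: v =>
    have h1 := h ((!x) :: v) (by simpa using hv)
    have e1 : (gen .a * g * gen .a) (x :: v) = act .a (g ((!x) :: v)) := by
      simp [Perm.mul_apply, act]
    rw [e1]
    match j with
    | 0 =>
      obtain ⟨-, h2⟩ := h1
      match hu : g ((!x) :: v) with
      | [] => rw [hu] at h2; simp at h2
      | y :: u =>
        rw [hu] at h2
        simp at h2
        simp [act, h2]
    | j + 1 =>
      obtain ⟨h2, h3⟩ := h1
      match hu : g ((!x) :: v) with
      | [] => rw [hu] at h2; simp at h2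
      | y :: u =>
        rw [hu] at h2 h3
        simp only [List.take_succ_cons, List.cons.injEq, List.getElem?_cons_succ] at h2 h3
        obtain ⟨rfl, h2⟩ := h2
        simp [act, h2, h3]

theorem F_lift {j : ℕ} {g g' : Perm (List Bool)} (h : F j g)
    (h0 : ∀ v, g' (false :: v) = false :: (gen .a * g * gen .a) v)
    (h1 : ∀ v, g' (true :: v) = true :: g v) : F (j + 1) g' := by
  intro v hv
  match v with
  | [] => simp at hv
  | false :: v =>
    have hv' : j < v.length := by simpa using hv
    have h2 := F_conj h v hv'
    rw [h0]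
    simp only [List.take_succ_cons, List.getElem?_cons_succ]
    exact ⟨by rw [h2.1], h2.2⟩
  | true :: v =>
    have hv' : j < v.length := by simpa using hv
    have h2 := h v hv'
    rw [h1]
    simp only [List.take_succ_cons, List.getElem?_cons_succ]
    exact ⟨by rw [h2.1], h2.2⟩

theorem zeta_ne (u : List L) : ∀ y ∈ zeta u, y ≠ .a := by
  intro y hy
  rw [zeta, List.mem_flatMap] at hy
  obtain ⟨z, -, hz⟩ := hy
  rintro rfl
  cases z <;> simp [zl] at hz

theorem count_zeta (u : List L) : (zeta u).count .b = u.count .b + 2 * u.count .c := by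
  induction u with
  | nil => simp [zeta]
  | cons s u ih =>
    have h1 : zeta (s :: u) = zl s ++ zeta u := by simp [zeta]
    rw [h1, List.count_append, ih]
    cases s <;> simp [zl] <;> omega

theorem even_zeta {u : List L} (h : Even (u.count .b)) : Even ((zeta u).count .b) := by
  rw [count_zeta]
  exact h.add (even_two_mul _)

theorem F_iter (hLIFT : Stmt_LIFT) (y : L) (hy : y = .c ∨ y = .d) (j : ℕ) :
    (∀ z ∈ zeta^[j] [y], z ≠ .a) ∧ Even ((zeta^[j] [y]).count .b) ∧
      F j (W (wd (zeta^[j] [y]))) := by
  induction j with
  | zero =>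
    refine ⟨?_, ?_, ?_⟩
    · rcases hy with rfl | rfl <;> simp
    · rcases hy with rfl | rfl <;> simp
    · intro v hv
      match v with
      | [] => simp at hv
      | x :: v =>
        rcases hy with rfl | rfl <;> cases x <;> simp [wd, act]
  | succ j ih =>
    obtain ⟨h1, h2, h3⟩ := ih
    rw [Function.iterate_succ_apply']
    obtain ⟨h4, h5⟩ := hLIFT _ h1 h2
    exact ⟨zeta_ne _, even_zeta h2, F_lift h3 h4 h5⟩

theorem stmt_FLIP (hLIFT : Stmt_LIFT) : Stmt_FLIP := by
  intro j v hv
  have h : F j (W (fl j)) := by
    by_cases hj : j = 0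
    · subst hj
      intro v hv
      match v with
      | [] => simp at hv
      | x :: v => simp [fl, act]
    · rw [fl, if_neg hj]
      exact (F_iter hLIFT _ (by split_ifs <;> simp) j).2.2
  exact h v hv

end GrigGrowth.helper22
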