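import Pool.Agent.Work.MP_6985d1_gg.Interface

/-!
# Block SMO: smoothing
-/

set_option autoImplicit false

namespace GrigGrowth.helper22

open GrigGrowth Equiv

theorem smo_aux (hFLIP : Stmt_FLIP) (D : ℕ) (f : List Bool → ℝ) (hf : ∀ v, 0 ≤ f v) (J : List ℕ)
    (hJ : J.Pairwise (· < ·)) (hD : ∀ j ∈ J, j < D) : ∀ (j0 : ℕ), (∀ j ∈ J, j0 ≤ j) →
    ∀ v ∈ vs D, Kop (J.map fl) f v ≤
      (∑ v' ∈ (vs D).filter (fun v' => v'.take j0 = v.take j0), f v') / 2 ^ J.length := by
  induction J with
  | nil =>
    intro j0 _ v hv
    simp only [List.map_nil, Kop, List.length_nil, pow_zero, div_one]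
    exact Finset.single_le_sum (f := f) (fun v' _ => hf v')
      (Finset.mem_filter.2 ⟨hv, rfl⟩)
  | cons j J ih =>
    intro j0 hj0 v hv
    rw [List.pairwise_cons] at hJ
    have ih' := ih hJ.2 (fun j' hj' => hD j' (List.mem_cons_of_mem _ hj')) (j + 1)
      (fun j' hj' => hJ.1 j' hj')
    have hvl : v.length = D := mem_vs.1 hv
    have hjD : j < v.length := by
      rw [hvl]
      exact hD j List.mem_cons_self
    have hj : j0 ≤ j := hj0 j List.mem_cons_self
    obtain ⟨h1, h2⟩ := hFLIP j v hjD
    have hv2 : W (fl j) v ∈ vs D := by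
      rw [mem_vs, W_length, hvl]
    have h3 := ih' v hv
    have h4 := ih' _ hv2
    have hne : v.take (j + 1) ≠ (W (fl j) v).take (j + 1) := by
      intro h5
      have h6 : (v.take (j + 1))[j]? = ((W (fl j) v).take (j + 1))[j]? := by rw [h5]
      rw [List.getElem?_take_of_lt (by omega), List.getElem?_take_of_lt (by omega), h2,
        List.getElem?_eq_getElem hjD] at h6
      simp at h6
    have hdis : Disjoint ((vs D).filter (fun v' => v'.take (j + 1) = v.take (j + 1)))
        ((vs D).filter (fun v' => v'.take (j + 1) = (W (fl j) v).take (j + 1))) := by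
      rw [Finset.disjoint_left]
      intro z hz hz'
      rw [Finset.mem_filter] at hz hz'
      exact hne (hz.2.symm.trans hz'.2)
    have htake : ∀ z w : List Bool, z.take (j + 1) = w.take (j + 1) →
        z.take j0 = w.take j0 := by
      intro z w h
      have h5 : (z.take (j + 1)).take j0 = (w.take (j + 1)).take j0 := by rw [h]
      rw [List.take_take, List.take_take, min_eq_left (by omega)] at h5
      exact h5
    have htj : (W (fl j) v).take j0 = v.take j0 := by
      have h5 : ((W (fl j) v).take j).take j0 = (v.take j).take j0 := by rw [h1]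
      rw [List.take_take, List.take_take, min_eq_left hj] at h5
      exact h5
    have hsub : (vs D).filter (fun v' => v'.take (j + 1) = v.take (j + 1)) ∪
        (vs D).filter (fun v' => v'.take (j + 1) = (W (fl j) v).take (j + 1)) ⊆
        (vs D).filter (fun v' => v'.take j0 = v.take j0) := by
      intro z hz
      rw [Finset.mem_union, Finset.mem_filter, Finset.mem_filter] at hz
      rw [Finset.mem_filter]
      rcases hz with hz | hz
      · exact ⟨hz.1, htake _ _ hz.2⟩
      · exact ⟨hz.1, (htake _ _ hz.2).trans htj⟩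
    have hsum : (∑ v' ∈ (vs D).filter (fun v' => v'.take (j + 1) = v.take (j + 1)), f v') +
        ∑ v' ∈ (vs D).filter (fun v' => v'.take (j + 1) = (W (fl j) v).take (j + 1)), f v' ≤
        ∑ v' ∈ (vs D).filter (fun v' => v'.take j0 = v.take j0), f v' := by
      rw [← Finset.sum_union hdis]
      exact Finset.sum_le_sum_of_subset_of_nonneg hsub (fun z _ _ => hf z)
    simp only [List.map_cons, Kop, List.length_cons]
    calc (Kop (J.map fl) f v + Kop (J.map fl) f (W (fl j) v)) / 2 ≤
        ((∑ v' ∈ (vs D).filter (fun v' => v'.take (j + 1) = v.take (j + 1)), f v') /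
          2 ^ J.length + (∑ v' ∈ (vs D).filter (fun v' => v'.take (j + 1) =
            (W (fl j) v).take (j + 1)), f v') / 2 ^ J.length) / 2 := by linarith
      _ = ((∑ v' ∈ (vs D).filter (fun v' => v'.take (j + 1) = v.take (j + 1)), f v') +
          ∑ v' ∈ (vs D).filter (fun v' => v'.take (j + 1) =
            (W (fl j) v).take (j + 1)), f v') / 2 ^ (J.length + 1) := by
          rw [pow_succ, ← add_div, div_div]
      _ ≤ _ := div_le_div_of_nonneg_right hsum (by positivity)

theorem stmt_SMO (hFLIP : Stmt_FLIP) : Stmt_SMO := by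
  intro D J hJ hD f hf v hv
  have h := smo_aux hFLIP D f hf J hJ hD 0 (fun j _ => Nat.zero_le j) v hv
  simpa using h

end GrigGrowth.helper22
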