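import Pool.Agent.Work.MP_6985d1_gg.Interface

/-!
# Blocks BIN and LOW
-/

set_option autoImplicit false

namespace GrigGrowth.helper22

open GrigGrowth Equiv

theorem sum_vs_succ (n : ℕ) (F : List Bool → ℝ) :
    ∑ e ∈ vs (n + 1), F e = ∑ e ∈ vs n, (F (true :: e) + F (false :: e)) := by
  have h1 : ∑ e ∈ vs n, (F (true :: e) + F (false :: e)) =
      ∑ p ∈ (vs n) ×ˢ (Finset.univ : Finset Bool), F (p.2 :: p.1) := by
    rw [Finset.sum_product]
    apply Finset.sum_congr rfl
    intro e _
    simp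
  rw [h1]
  symm
  refine Finset.sum_bij (fun p _ => p.2 :: p.1) ?_ ?_ ?_ ?_
  · intro p hp
    rw [Finset.mem_product, mem_vs] at hp
    rw [mem_vs, List.length_cons, hp.1]
  · intro p _ p' _ h
    simp only [List.cons.injEq] at h
    exact Prod.ext h.2 h.1
  · intro e he
    match e with
    | [] => simp at he
    | x :: e =>
      rw [mem_vs] at he
      refine ⟨(e, x), ?_, rfl⟩
      rw [Finset.mem_product, mem_vs]
      exact ⟨by simpa using he, Finset.mem_univ _⟩
  · intro p _
    rfl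

theorem sum_pow (x : ℝ) (n : ℕ) : ∑ e ∈ vs n, x ^ (e.count true) = (1 + x) ^ n := by
  induction n with
  | zero =>
    have : vs 0 = {[]} := by
      ext e
      simp
    rw [this]
    simp
  | succ n ih =>
    rw [sum_vs_succ, pow_succ, ← ih, Finset.sum_mul]
    apply Finset.sum_congr rfl
    intro e _
    simp only [List.count_cons_self]
    rw [List.count_cons_of_ne (by simp)]
    ring

theorem stmt_BIN : Stmt_BIN := by
  intro k
  set A := (vs (16 * k)).filter fun e => e.count true ≤ k with hA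
  have h1 : (A.card : ℝ) * (1 / 16) ^ k ≤ (1 + 1 / 16) ^ (16 * k) := by
    rw [← sum_pow, ← nsmul_eq_mul, ← Finset.sum_const]
    calc ∑ _e ∈ A, ((1 : ℝ) / 16) ^ k ≤ ∑ e ∈ A, ((1 : ℝ) / 16) ^ (e.count true) := by
          apply Finset.sum_le_sum
          intro e he
          rw [hA, Finset.mem_filter] at he
          exact pow_le_pow_of_le_one (by norm_num) (by norm_num) he.2
      _ ≤ _ := Finset.sum_le_sum_of_subset_of_nonneg (Finset.filter_subset _ _)
          (fun e _ _ => by positivity)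
  have h2 : ((1 : ℝ) + 1 / 16) ^ (16 * k) ≤ 4 ^ k := by
    rw [pow_mul]
    apply pow_le_pow_left₀ (by positivity)
    norm_num
  have h3 : (A.card : ℝ) ≤ 2 ^ (6 * k) := by
    have h4 : (0 : ℝ) < 16 ^ k := by positivity
    have h5 : (A.card : ℝ) = (A.card : ℝ) * (1 / 16) ^ k * 16 ^ k := by
      rw [mul_assoc, ← mul_pow]
      norm_num
    rw [h5, pow_mul]
    calc (A.card : ℝ) * (1 / 16) ^ k * 16 ^ k ≤ 4 ^ k * 16 ^ k :=
          mul_le_mul_of_nonneg_right (h1.trans h2) h4.le
      _ = (2 ^ 6) ^ k := by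
          rw [← mul_pow]
          norm_num
  exact_mod_cast h3

theorem slots_append (P Q : List (Option ℕ)) : slots (P ++ Q) = slots P + slots Q := by
  simp [slots]

theorem slots_map (J : List ℕ) : slots (J.map some) = 0 := by
  rw [slots, List.count_eq_zero]
  simp

theorem slots_prog (M m : ℕ) : slots (prog M m) = 2 ^ m := by
  induction m with
  | zero => simp [prog, slots]
  | succ m ih =>
    rw [prog, slots_append, slots_append, slots_map, ih, pow_succ]
    ring

theorem stmt_LOW (hCNT1 : Stmt_CNT1) (hCNT2 : Stmt_CNT2) (hERR : Stmt_ERR) (hBIN : Stmt_BIN)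
    (hPLEN : Stmt_PLEN) (hFIN : Stmt_BALLFIN) : Stmt_LOW := by
  intro l hl
  obtain ⟨C, hC⟩ := hPLEN l hl
  refine ⟨C, ?_⟩
  intro M hM n hn
  set P := prog M M with hP
  set D := dep M with hD
  set K := 2 ^ (M - 4) with hK
  have hK1 : 1 ≤ K := Nat.one_le_two_pow
  have hMK : 2 ^ M = 16 * K := by
    have : M = 4 + (M - 4) := by omega
    rw [this, pow_add, hK]
    norm_num
  have h1 : 2 * ∑ e ∈ vs P.length, (er D P e).count true ≤ K * 2 ^ P.length := by
    have h2 := hCNT1 D P
    have h3 := hERR M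
    have h4 : (2 : ℝ) ^ P.length * Err D P ≤ 2 ^ P.length * (2 ^ M / 32) :=
      mul_le_mul_of_nonneg_left h3 (by positivity)
    have h5 : (2 : ℝ) ^ M = 16 * K := by exact_mod_cast hMK
    have h6 : (2 : ℝ) * ∑ e ∈ vs P.length, ((er D P e).count true : ℝ) ≤
        K * 2 ^ P.length := by
      rw [h5] at h4
      have h7 : (2 : ℝ) ^ P.length * (16 * (K : ℝ) / 32) = K * 2 ^ P.length / 2 := by ring
      rw [h7] at h4
      linarith
    exact_mod_cast h6
  have h2 := hCNT2 D P K h1
  have h3 : slots P = 16 * K := by rw [hP, slots_prog, hMK]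
  rw [h3] at h2
  have h4 := hBIN K
  have h5 : 2 ^ (16 * K) ≤ 2 * (vals P).card * 2 ^ (6 * K) :=
    h2.trans (Nat.mul_le_mul_left _ h4)
  have h6 : 2 ^ (8 * K) ≤ (vals P).card := by
    have h7 : 2 ^ (8 * K) * 2 ^ (6 * K + 1) ≤ (vals P).card * 2 ^ (6 * K + 1) := by
      calc 2 ^ (8 * K) * 2 ^ (6 * K + 1) = 2 ^ (8 * K + (6 * K + 1)) := (pow_add _ _ _).symm
        _ ≤ 2 ^ (16 * K) := Nat.pow_le_pow_right (by norm_num) (by omega)
        _ ≤ 2 * (vals P).card * 2 ^ (6 * K) := h5
        _ = (vals P).card * 2 ^ (6 * K + 1) := by rw [pow_succ]; ring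
    exact Nat.le_of_mul_le_mul_right h7 (by positivity)
  have h7 : 8 * K = 2 ^ (M - 1) := by
    have : M - 1 = 3 + (M - 4) := by omega
    rw [this, pow_add, hK]
    norm_num
  rw [h7] at h6
  have h8 : (vals P : Set (Perm (List Bool))) ⊆ ball n := by
    intro g hg
    rw [Finset.mem_coe] at hg
    classical
    unfold vals at hg
    rw [Finset.mem_image] at hg
    obtain ⟨e, -, rfl⟩ := hg
    refine ⟨U P e, ?_, rfl⟩
    have h9 := (hC M e).trans hn
    exact_mod_cast h9
  have h9 := Set.ncard_le_ncard h8 (hFIN n)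
  rw [Set.ncard_coe_finset] at h9
  exact h6.trans h9

end GrigGrowth.helper22
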